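import Pool.Agent.ART.All

/-!
# Rationality of central values of elliptic curves over number fields: Artin formalism for the conjecture

`E` is an elliptic curve over a number field `k`, `F i` are number fields over `k`, `d i` is a nonzero element of `F i` with
quadratic character `χ_i`, and `A i` over `F i` is the quadratic twist by `d i` of the base change of `E`. The `n i` are integers
with `∑ n i • Ind χ_i = 0` in the ring of characters of the absolute Galois group of `k`. Then the product of the
`L(1, A i) ^ n i` and the product of the `Ω(A i) ^ n i` are rational, and the conjecture `L(1, A) ∈ Ω(A) ℚˣ` for all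
the `A i` but one implies the conjecture for the last one, if its multiplicity is `1` or `-1`.

Proof. The `L`-series: for almost all primes `v` of `k` the product of the Euler factors of the `A i` over `v` is one. This needs only
`a(q^2) = a(q)^2 - 2 q` for curves over finite fields of odd order, which is proved here by a sum over quadratic characters, and the
relation for the powers of the Frobenius. The bound `|a(q)| ≤ q` is enough for the convergence, and all the Euler factors are nonzero
rational numbers at `s = 1`. The periods: the relation at the complex conjugations gives the product of the local periods of `E`, and the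
remaining factor `∏ |d_(F i) N(d i)| ^ (n i)` is a square in `ℚ`, because its square root is a determinant of the relation.
The definitions are in `Pool/Agent/ART/Defs.lean`; see `ART.all_WellDefined` for the uniqueness of `L(1, A)` and of `Ω(A)` up to rational factors.
-/

set_option autoImplicit false

namespace Pool.Agent.Results.MP_90f827_nt.ArtinFormalism

open ART

theorem result : ∀ (k : Type) [Field k] [NumberField k] (E : WeierstrassCurve k) (ι : Type)
    [Fintype ι] (F : ι → Type) [∀ i, Field (F i)] [∀ i, NumberField (F i)]
    [∀ i, Algebra k (F i)] (d : ∀ i, F i) (n : ι → ℤ), E.Δ ≠ 0 → (∀ i, d i ≠ 0) →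
    (∀ g : AlgebraicClosure k ≃ₐ[k] AlgebraicClosure k, ∑ i, n i * sgn (d i) g = 0) →
    ∀ A : ∀ i, WeierstrassCurve (F i), (∀ i, IsTwist E (d i) (A i)) →
    ∀ (c : ι → ℂ) (x : ι → ℝ), (∀ i, IsLValue (A i) (c i)) → (∀ i, IsOmega (A i) (x i)) →
      (∀ i, x i ≠ 0) ∧
      (∃ q : ℚ, q ≠ 0 ∧ ∏ i, c i ^ (n i).toNat = q * ∏ i, c i ^ (-n i).toNat) ∧
      (∃ q : ℚ, q ≠ 0 ∧ ∏ i, x i ^ n i = q) ∧
      ∀ j, n j ≠ 0 → (∀ i, i ≠ j → c i ≠ 0 ∧ ∃ q : ℚ, c i = q * x i) →
        c j ≠ 0 ∧ (∃ q : ℚ, q ≠ 0 ∧ (c j / x j) ^ n j = q) ∧
          (n j = 1 ∨ n j = -1 → ∃ q : ℚ, q ≠ 0 ∧ c j = q * x j) :=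
  all_General

end Pool.Agent.Results.MP_90f827_nt.ArtinFormalism
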