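import Pool.Agent.ART.All

/-!
# Rationality of central values of elliptic curves over number fields: transfer between two quadratic extensions

`E` is an elliptic curve over a number field `k`, and `x^2 = a y^2 + b z^2` in `k` with `y, z ≠ 0` and `a`, `b` not squares. `A₁` is the twist of `E` by
`x + y √a` over `k(√a)` and `A₂` the twist of `E` by `2 (x + z √b)` over `k(√b)`. The two curves are defined over different fields if `a b` is not a
square. The `L`-values and the periods `Ω` of `A₁` and `A₂` agree up to rational factors, so the conjecture `L(1, A) ∈ Ω(A) ℚˣ` holds for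
`A₁` if and only if it holds for `A₂`. Every twist of `E` by an element `δ` of a quadratic extension of `k`, `δ` not in `k`, such that the
norm of `δ` is not a square in `k` has this form (`b` is the norm of `δ` and `z = 1`).
-/

set_option autoImplicit false

namespace Pool.Agent.Results.MP_90f827_nt.DihedralTransfer

open ART

theorem result : ∀ (k F₁ F₂ : Type) [Field k] [NumberField k] [Field F₁] [NumberField F₁]
    [Algebra k F₁] [Field F₂] [NumberField F₂] [Algebra k F₂] (E : WeierstrassCurve k)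
    (a b x y z : k) (α : F₁) (β : F₂), E.Δ ≠ 0 → Module.finrank k F₁ = 2 →
    Module.finrank k F₂ = 2 → α ^ 2 = algebraMap k F₁ a → β ^ 2 = algebraMap k F₂ b →
    ¬ IsSquare a → ¬ IsSquare b → x ^ 2 = a * y ^ 2 + b * z ^ 2 → y ≠ 0 → z ≠ 0 →
    ∀ (A₁ : WeierstrassCurve F₁) (A₂ : WeierstrassCurve F₂) (c₁ c₂ : ℂ) (x₁ x₂ : ℝ),
      IsTwist E (algebraMap k F₁ x + algebraMap k F₁ y * α) A₁ →
      IsTwist E (2 * (algebraMap k F₂ x + algebraMap k F₂ z * β)) A₂ →
      IsLValue A₁ c₁ → IsLValue A₂ c₂ → IsOmega A₁ x₁ → IsOmega A₂ x₂ →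
      (∃ q : ℚ, q ≠ 0 ∧ c₁ = q * c₂) ∧ (∃ q : ℚ, q ≠ 0 ∧ x₁ = q * x₂) ∧
        ((c₁ ≠ 0 → ∃ q : ℚ, q ≠ 0 ∧ c₁ = q * x₁) ↔
          (c₂ ≠ 0 → ∃ q : ℚ, q ≠ 0 ∧ c₂ = q * x₂)) :=
  all_Dihedral

end Pool.Agent.Results.MP_90f827_nt.DihedralTransfer
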