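import Pool.Agent.ART.All

/-!
# Rationality of central values of elliptic curves over number fields: reduction to the hyperelementary layers

`M / k` is a finite Galois extension of number fields and `E` is an elliptic curve over `k`. If the conjecture
`L(1, A) ∈ Ω(A) ℚˣ` holds, with `L(1, A) ≠ 0`, for the base changes `A` of `E` to the intermediate fields `F` such that `Gal(M/F)` is
hyperelementary (an extension of a `p`-group by a cyclic group), then it holds for the base changes of `E` to all the intermediate fields.

The proof uses Solomon's induction theorem (`ART.Solomon`), which is proved in `Pool/Agent/ART/Solomon.lean`, and the compatibility of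
`L(1, A)` and `Ω(A)` modulo `ℚˣ` with all relations between induced characters (`ART.all_General`).
-/

set_option autoImplicit false

namespace Pool.Agent.Results.MP_90f827_nt.HyperelementaryLayers

open ART

theorem result : ∀ (k M : Type) [Field k] [NumberField k] [Field M] [NumberField M] [Algebra k M]
    [IsGalois k M] (E : WeierstrassCurve k) (c : IntermediateField k M → ℂ)
    (x : IntermediateField k M → ℝ), E.Δ ≠ 0 →
    (∀ F : IntermediateField k M, Hyper F.fixingSubgroup → IsLValue (E.baseChange F) (c F) ∧
      IsOmega (E.baseChange F) (x F) ∧ c F ≠ 0 ∧ ∃ q : ℚ, c F = q * x F) →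
    ∀ F : IntermediateField k M, IsLValue (E.baseChange F) (c F) →
      IsOmega (E.baseChange F) (x F) → c F ≠ 0 ∧ ∃ q : ℚ, q ≠ 0 ∧ c F = q * x F :=
  all_Hyperelementary

end Pool.Agent.Results.MP_90f827_nt.HyperelementaryLayers
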