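import Pool.Agent.ART.RS.TMain

/-!
# Rationality of central values of elliptic curves over number fields: splitting into totally real parts

`E` is an elliptic curve over a number field `k`, `F / k` a finite extension, `d` a nonzero element of `F` with quadratic character `χ_d`, `A` the twist of
`E` by `d` over `F`, and `T` a set of automorphisms of the algebraic closure of `k` which is stable under conjugation, for example the set of all complex
conjugations (`k` totally real), or the Galois group over a Galois extension `L / k`.

The elements of `T` act on the Galois closure of `F(√d)` as commuting involutions if and only if `Ind χ_d` is an integral combination of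
representations `Ind χ_(δ i)`, where `δ i` is a nonzero element of a field `K i` on whose conjugates `T` is trivial (for the complex conjugations: `K i` is
totally real; for the Galois group over `L`: `K i` is a subfield of `L`). In this case `Ind χ_d` is a sum of such representations, and
`L(1, A)` and `Ω(A)` are, up to rational factors, the products of the `L(1, B i)` and of the `Ω(B i)`, `B i` the twist of `E` by `δ i` over `K i`. So the conjecture for
all the `B i` implies the conjecture for `A`.

Proof. Let `X` be the set of the pairs of an embedding `φ` of `F` and a square root `z` of `φ d`, and `Z` the elementary abelian group of permutations of `X`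
generated by `T`. The nonzero functions `∑_(z ∈ Z) ψ(z) (z x - z (- x))`, for `x ∈ X` and the characters `ψ` of `Z`, are permuted by the Galois group, and two
of them are equal, opposite or orthogonal, so they give the trace of the Galois group on the odd functions on `X`, which is `Ind χ_d`. They embed into the
algebraic closure, and the images `y` give `K = k(y ^ 2)`, `δ = y ^ 2`. For the conjecture see `ART.all_General`.
-/

set_option autoImplicit false

namespace Pool.Agent.Results.MP_90f827_nt.RealSplitting

open ART

theorem result : ∀ (k F : Type) [Field k] [NumberField k] [Field F] [NumberField F]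
    [Algebra k F] (d : F) (T : Set (AlgebraicClosure k ≃ₐ[k] AlgebraicClosure k)), d ≠ 0 →
    (∀ c ∈ T, ∀ g, g * c * g⁻¹ ∈ T) →
  (ActsInv T d ↔ ∃ (r : ℕ) (K : Fin r → Type) (_ : ∀ i, Field (K i))
    (_ : ∀ i, NumberField (K i)) (_ : ∀ i, Algebra k (K i)) (δ : ∀ i, K i) (n : Fin r → ℤ),
    (∀ i, δ i ≠ 0) ∧ (∀ i, TrivialOn T (K i)) ∧
    ∀ g : AlgebraicClosure k ≃ₐ[k] AlgebraicClosure k, sgn d g = ∑ i, n i * sgn (δ i) g) ∧
  (ActsInv T d → ∃ (r : ℕ) (K : Fin r → Type) (_ : ∀ i, Field (K i))
    (_ : ∀ i, NumberField (K i)) (_ : ∀ i, Algebra k (K i)) (δ : ∀ i, K i),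
    (∀ i, δ i ≠ 0) ∧ (∀ i, TrivialOn T (K i)) ∧
    (conjugations k ⊆ T → ∀ i, RealOver k (K i)) ∧
    (∀ g : AlgebraicClosure k ≃ₐ[k] AlgebraicClosure k, sgn d g = ∑ i, sgn (δ i) g) ∧
    ∀ (E : WeierstrassCurve k) (A : WeierstrassCurve F) (B : ∀ i, WeierstrassCurve (K i)) (c : ℂ)
      (b : Fin r → ℂ) (x : ℝ) (y : Fin r → ℝ), E.Δ ≠ 0 → IsTwist E d A →
      (∀ i, IsTwist E (δ i) (B i)) → IsLValue A c → (∀ i, IsLValue (B i) (b i)) →
      IsOmega A x → (∀ i, IsOmega (B i) (y i)) →
        (∃ q : ℚ, q ≠ 0 ∧ c = q * ∏ i, b i) ∧ (∃ q : ℚ, q ≠ 0 ∧ x = q * ∏ i, y i) ∧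
        ((∀ i, b i ≠ 0 → ∃ q : ℚ, q ≠ 0 ∧ b i = q * y i) →
          c ≠ 0 → ∃ q : ℚ, q ≠ 0 ∧ c = q * x)) :=
  all_Splitting

end Pool.Agent.Results.MP_90f827_nt.RealSplitting
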